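import Pool.Agent.L0h75.PA.G7
import Pool.Agent.L0h2.PA.HCM
import Pool.Agent.L0h91.PA.UNI
import Pool.Agent.L0h91.PA.DEC
import Pool.Agent.L0h91.PA.SUM
import Pool.Agent.L0h74.PA.ROOT
import Pool.Agent.L0h74.PA.EVO

/-!
# PA: the parity theorem, assembled
-/

set_option autoImplicit false

namespace Pool.Agent.L0h75.PA

/-- PAR: the order at the centre is even. -/
theorem t_PAR : S_PAR :=
  par (Pool.Agent.L0h74.PA.t_ROOT Pool.Agent.L0h2.PA.t_HCM Pool.Agent.L0h2.PA.t_CSX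
    Pool.Agent.L0h91.PA.t_UNI t_G7 Pool.Agent.L0h2.PA.t_REC) Pool.Agent.L0h74.PA.t_EVO
    Pool.Agent.L0h91.PA.t_DEC Pool.Agent.L0h91.PA.t_SUM

end Pool.Agent.L0h75.PA
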