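import Pool.Agent.L0h75.EV.Hc
import Pool.Agent.TH936.AW.Fe
import Pool.Agent.TH936.AW.Wc
import Pool.Agent.TH936.AC.Bar
import Pool.Agent.W287.HK.Basic
import Pool.Agent.W571.HK.Cls
import Pool.Agent.W53.HK.Fp
import Pool.Agent.W366.HK.Fpr
import Pool.Agent.W585.HK.LAT
import Pool.Agent.W692.HK.Ker
import Pool.Agent.W584.HK.CNT
import Pool.Agent.W856.HK.Dec
import Pool.Agent.W636.HK.Gauss
import Pool.Agent.W348.HK.Pois
import Pool.Agent.W29.HK.Prod
import Pool.Agent.W283.HK.PW

/-!
# PA: the functional equations of the Hecke L-functions of type `(2 m - 1, 0)` (library)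
-/

set_option autoImplicit false

namespace Pool.Agent.L0h75.PA

open Pool.Agent.Y698 Pool.Agent.W192.HK Pool.Agent.TH936.AC Pool.Agent.TH936.AW

theorem hbasic : H_BASIC := Pool.Agent.W287.HK.h_basic
theorem hfp : H_FP := Pool.Agent.W53.HK.h_fp hbasic (Pool.Agent.W571.HK.h_cls hbasic)
theorem hprod : H_PROD := Pool.Agent.W29.HK.h_prod hbasic hfp
theorem abar : A_BAR := Pool.Agent.TH936.AC.a_bar hbasic

/-- the functional equation -/
theorem fe : B_FE := by
  have hcls := Pool.Agent.W571.HK.h_cls hbasic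
  have hfpr := Pool.Agent.W366.HK.h_fpr hbasic hcls
  have hlat := Pool.Agent.W585.HK.h_lat hbasic
  have hker := Pool.Agent.W692.HK.h_ker hbasic hcls hfpr
  have hcnt := Pool.Agent.W584.HK.h_cnt hbasic hcls hfpr hlat hker
  have hdec := Pool.Agent.W856.HK.h_dec hbasic
  have hgauss := Pool.Agent.W636.HK.h_gauss hbasic hfp
  have hpois := Pool.Agent.W348.HK.h_pois hbasic
  have htheta := Pool.Agent.TH936.HK.h_theta hbasic hfp hdec hgauss hpois hcnt
  have hafe := Pool.Agent.TH936.HK.h_afe hbasic hfp hcnt hgauss htheta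
  exact Pool.Agent.TH936.AW.b_fe hbasic hfp hcnt hgauss htheta hafe abar

/-- the root number of a twist by a ring class character -/
theorem wc : B_WC :=
  Pool.Agent.TH936.AW.b_wc hbasic (Pool.Agent.W571.HK.h_cls hbasic) hfp
    (Pool.Agent.W283.HK.PW.h_pw hbasic) abar

/-- the ring of integers of `ℚ(√-7)` -/
theorem qp : QP RR al := ⟨qr, inferInstance⟩

end Pool.Agent.L0h75.PA
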