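import Pool.Agent.L0h75.PA.Stm

/-!
# PA: the Gauss sums at `√-7` and at two
-/

set_option autoImplicit false

namespace Pool.Agent.L0h75.PA
open Pool.Agent.Y698 Pool.Agent.Y698.SG Pool.Agent.L0h4.TW Pool.Agent.L0h75.EV
open Pool.Agent.W192.HK Pool.Agent.TH936.AC Pool.Agent.TH936.AW
open Pool.Agent.W192.CM (ez)

/-! ### the Gauss sum of seven -/

/-- the powers of the root of unity -/
noncomputable def ee' (y : ℕ) : ℂ := Complex.exp (((-(4 * Real.pi * y / 7) : ℝ) : ℂ) * Complex.I)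

lemma ee_pow (y : ℕ) : ee' y = ee' 1 ^ y := by
  unfold ee'
  rw [← Complex.exp_nat_mul]
  congr 1
  push_cast
  ring

lemma ee_seven : ee' 1 ^ 7 = 1 := by
  rw [← ee_pow]
  unfold ee'
  rw [Complex.exp_eq_one_iff]
  refine ⟨-2, ?_⟩
  push_cast
  ring

lemma ee_ne : ee' 1 ≠ 1 := by
  unfold ee'
  intro h
  rw [Complex.exp_eq_one_iff] at h
  obtain ⟨n, hn⟩ := h
  have hpi : (Real.pi : ℂ) ≠ 0 := by exact_mod_cast Real.pi_ne_zero
  have h1 : ((-(4 * Real.pi * (1 : ℕ) / 7) : ℝ) : ℂ) = n * (2 * Real.pi) := by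
    have h2 := mul_right_cancel₀ Complex.I_ne_zero (show ((-(4 * Real.pi * (1 : ℕ) / 7) : ℝ) : ℂ) * Complex.I =
      (n * (2 * Real.pi)) * Complex.I by rw [hn]; ring)
    exact h2
  have h3 : (-2 : ℂ) = 7 * n := by
    apply mul_right_cancel₀ hpi
    push_cast at h1
    linear_combination (7 / 2 : ℂ) * h1
  have h4 : (-2 : ℤ) = 7 * n := by exact_mod_cast h3
  omega

/-- the Gauss sum -/
noncomputable def G7 : ℂ := ee' 1 + ee' 2 - ee' 3 + ee' 4 - ee' 5 - ee' 6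

lemma G7_sq : G7 ^ 2 = -7 := by
  have h1 := ee_seven
  have h0 : 1 + ee' 1 + ee' 1 ^ 2 + ee' 1 ^ 3 + ee' 1 ^ 4 + ee' 1 ^ 5 + ee' 1 ^ 6 = 0 := by
    have h2 : (ee' 1 - 1) * (1 + ee' 1 + ee' 1 ^ 2 + ee' 1 ^ 3 + ee' 1 ^ 4 + ee' 1 ^ 5 + ee' 1 ^ 6) = 0 := by
      linear_combination h1
    exact (mul_eq_zero.1 h2).resolve_left (sub_ne_zero.2 ee_ne)
  unfold G7
  rw [ee_pow 2, ee_pow 3, ee_pow 4, ee_pow 5, ee_pow 6]
  set z := ee' 1
  have e1 : (z + z ^ 2 + z ^ 4) * (z ^ 3 + z ^ 5 + z ^ 6) = 2 := by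
    linear_combination (3 + z + z ^ 2 + z ^ 3) * h1 + h0
  have e2 : (z + z ^ 2 + z ^ 4) + (z ^ 3 + z ^ 5 + z ^ 6) = -1 := by linear_combination h0
  have e3 : (z + z ^ 2 - z ^ 3 + z ^ 4 - z ^ 5 - z ^ 6) ^ 2 =
    ((z + z ^ 2 + z ^ 4) + (z ^ 3 + z ^ 5 + z ^ 6)) ^ 2 -
      4 * ((z + z ^ 2 + z ^ 4) * (z ^ 3 + z ^ 5 + z ^ 6)) := by ring
  rw [e3, e2, e1]
  norm_num

lemma ee_im (y : ℕ) : (ee' y).im = Real.sin (-(4 * Real.pi * y / 7)) := by
  unfold ee'
  rw [Complex.exp_ofReal_mul_I_im]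

lemma G7_im : G7.im < 0 := by
  have hpi := Real.pi_pos
  have a1 : (ee' 1).im = -Real.sin (3 * Real.pi / 7) := by
    rw [ee_im, Real.sin_neg, ← Real.sin_pi_sub]
    congr 2
    push_cast
    ring
  have a2 : (ee' 2).im = Real.sin (Real.pi / 7) := by
    rw [ee_im, ← Real.sin_add_two_pi, ← Real.sin_pi_sub]
    congr 1
    push_cast
    ring
  have a3 : (ee' 3).im = Real.sin (2 * Real.pi / 7) := by
    rw [ee_im, ← Real.sin_add_two_pi]
    congr 1
    push_cast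
    ring
  have a4 : (ee' 4).im = -Real.sin (2 * Real.pi / 7) := by
    rw [ee_im, ← Real.sin_add_two_pi, ← Real.sin_neg]
    congr 1
    push_cast
    ring
  have a5 : (ee' 5).im = -Real.sin (Real.pi / 7) := by
    rw [ee_im, ← Real.sin_add_two_pi, ← Real.sin_pi_sub (Real.pi / 7), ← Real.sin_neg]
    congr 1
    push_cast
    ring
  have a6 : (ee' 6).im = Real.sin (3 * Real.pi / 7) := by
    rw [ee_im, ← Real.sin_add_two_pi, ← Real.sin_add_two_pi, ← Real.sin_pi_sub]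
    congr 1
    push_cast
    ring
  have b1 : 0 < Real.sin (3 * Real.pi / 7) := Real.sin_pos_of_pos_of_lt_pi (by positivity) (by linarith)
  have b2 : Real.sin (Real.pi / 7) < Real.sin (2 * Real.pi / 7) :=
    Real.sin_lt_sin_of_lt_of_le_pi_div_two (by linarith) (by linarith) (by linarith)
  unfold G7
  simp only [Complex.add_im, Complex.sub_im]
  rw [a1, a2, a3, a4, a5, a6]
  linarith

lemma G7_eq : G7 = -s7 := by
  have h1 : (G7 - s7) * (G7 + s7) = 0 := by linear_combination G7_sq - s7_sq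
  rcases mul_eq_zero.1 h1 with h | h
  · exfalso
    have h2 : G7 = s7 := sub_eq_zero.1 h
    have h3 := G7_im
    rw [h2] at h3
    unfold s7 at h3
    have h4 : 0 ≤ Real.sqrt 7 := Real.sqrt_nonneg 7
    simp at h3
    linarith
  · exact eq_neg_of_add_eq_zero_left h

/-! ### the values of the exponential -/

lemma ez_seven (y : ℕ) : ez al (((y : RR) : ℂ) / (fR : ℂ)) = ee' y := by
  unfold ez ee'
  congr 1
  have h7 : 0 < Real.sqrt 7 := Real.sqrt_pos.2 (by norm_num)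
  have h7' : Real.sqrt 7 * Real.sqrt 7 = 7 := Real.mul_self_sqrt (by norm_num)
  have h1 : (((y : RR) : ℂ) / (fR : ℂ)) = (((-(y : ℝ) / Real.sqrt 7 : ℝ)) : ℂ) * Complex.I := by
    rw [fR_coe]
    unfold s7
    have h8 : (Real.sqrt 7 : ℂ) ≠ 0 := by exact_mod_cast h7.ne'
    push_cast
    field_simp
    linear_combination (y : ℂ) * Complex.I_sq
  have h2 : ∀ r : ℝ, ((r : ℂ) * Complex.I).im = r := fun r => by simp
  rw [h1, h2, al_im]
  have h3 : -(y : ℝ) / Real.sqrt 7 / (Real.sqrt 7 / 2) = -(2 * y / 7) := by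
    field_simp
    rw [show (Real.sqrt 7) ^ 2 = 7 from Real.sq_sqrt (by norm_num)]
  rw [h3]
  push_cast
  ring

lemma e7_nat (y : ℕ) : e7 (y : RR) = ((quadraticChar (ZMod 7) (y : ZMod 7) : ℤ) : ℂ) := by
  unfold e7
  rw [map_natCast]

/-- the representatives modulo `√-7` -/
noncomputable def T1 : Finset RR := by
  classical
  exact (Finset.range 7).image fun y : ℕ => (y : RR)

lemma T1_inj : Set.InjOn (fun y : ℕ => (y : RR)) (Finset.range 7 : Finset ℕ) := by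
  intro x hx y hy h
  have h1 := congrArg r7 h
  simp only [map_natCast] at h1
  rw [Finset.mem_coe, Finset.mem_range] at hx hy
  have h2 := (ZMod.natCast_eq_natCast_iff' x y 7).1 h1
  omega

lemma T1_rp : ∀ α : RR, ∃! x, x ∈ T1 ∧ α - x ∈ sp fR := by
  classical
  intro α
  have h7 : (((r7 α).val : ℕ) : ZMod 7) = r7 α := ZMod.natCast_zmod_val _
  refine ⟨(((r7 α).val : ℕ) : RR), ⟨?_, ?_⟩, ?_⟩
  · unfold T1
    exact Finset.mem_image.2 ⟨_, Finset.mem_range.2 (ZMod.val_lt _), rfl⟩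
  · rw [← r7_eq_zero, map_sub, map_natCast, h7, sub_self]
  · rintro x ⟨hx, hx'⟩
    unfold T1 at hx
    obtain ⟨y, hy, rfl⟩ := Finset.mem_image.1 hx
    rw [← r7_eq_zero, map_sub, map_natCast, sub_eq_zero] at hx'
    rw [hx', ZMod.val_natCast, Nat.mod_eq_of_lt (Finset.mem_range.1 hy)]

/-- the Gauss sum -/
lemma sum_T1 : ∑ x ∈ T1, e7 x * ez al ((x : ℂ) / (fR : ℂ)) = -s7 := by
  classical
  unfold T1
  rw [Finset.sum_image T1_inj, ← G7_eq]
  simp only [e7_nat, ez_seven]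
  have q0 : quadraticChar (ZMod 7) ((0 : ℕ) : ZMod 7) = 0 := by decide
  have q1 : quadraticChar (ZMod 7) ((1 : ℕ) : ZMod 7) = 1 := by decide
  have q2 : quadraticChar (ZMod 7) ((2 : ℕ) : ZMod 7) = 1 := by decide
  have q3 : quadraticChar (ZMod 7) ((3 : ℕ) : ZMod 7) = -1 := by decide
  have q4 : quadraticChar (ZMod 7) ((4 : ℕ) : ZMod 7) = 1 := by decide
  have q5 : quadraticChar (ZMod 7) ((5 : ℕ) : ZMod 7) = -1 := by decide
  have q6 : quadraticChar (ZMod 7) ((6 : ℕ) : ZMod 7) = -1 := by decide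
  simp only [Finset.sum_range_succ, Finset.sum_range_zero, q0, q1, q2, q3, q4, q5, q6]
  unfold G7
  push_cast
  ring

/-! ### the sums modulo a power of two -/

lemma nR_gg {q : ℕ} (p : ZMod q × ZMod q) : nR (Wcc.gg qr p) =
    (p.1.val : ℤ) ^ 2 + (p.1.val : ℤ) * (p.2.val : ℤ) + 2 * (p.2.val : ℤ) ^ 2 := by
  apply nR_of
  unfold Wcc.gg Wcc.om
  push_cast
  rfl

lemma std_half {q : ℕ} [NeZero q] (r : ℕ) (h : q = 2 * r) :
    ZMod.stdAddChar ((r : ℤ) : ZMod q) = -1 := by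
  rw [ZMod.stdAddChar_coe]
  have hr : (r : ℂ) ≠ 0 := by
    have := NeZero.ne q
    exact_mod_cast (by omega : r ≠ 0)
  have e : 2 * (Real.pi : ℂ) * Complex.I * ((r : ℤ) : ℂ) / (q : ℂ) = Real.pi * Complex.I := by
    rw [h]
    push_cast
    field_simp
  rw [e, Complex.exp_pi_mul_I]

lemma sum_q1 : ∑ p : ZMod 1 × ZMod 1, (fun _ : ℤ => (1 : ℂ)) (nR (Wcc.gg qr p)) *
    ZMod.stdAddChar p.2 = 1 := by
  have h : ∀ p : ZMod 1 × ZMod 1, (fun _ : ℤ => (1 : ℂ)) (nR (Wcc.gg qr p)) *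
    ZMod.stdAddChar p.2 = 1 := by
    intro p
    have h0 : p.2 = 0 := Subsingleton.elim _ _
    rw [h0, AddChar.map_zero_eq_one, mul_one]
  rw [Finset.sum_congr rfl fun p _ => h p]
  simp

lemma a4 : ∀ b : ZMod 4, ∑ a : ZMod 4, ZMod.χ₄ (a ^ 2 + a * b + 2 * b ^ 2) =
    (if b = 0 then 2 else 0) + (if b = 2 then -2 else 0) := by decide

lemma a8 : ∀ b : ZMod 8, ∑ a : ZMod 8, ZMod.χ₈ (a ^ 2 + a * b + 2 * b ^ 2) =
    (if b = 0 then 4 else 0) + (if b = 4 then -4 else 0) := by decide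

lemma a8' : ∀ b : ZMod 8, ∑ a : ZMod 8, ZMod.χ₈' (a ^ 2 + a * b + 2 * b ^ 2) =
    (if b = 0 then 4 else 0) + (if b = 4 then -4 else 0) := by decide

lemma sum_q4 : ∑ p : ZMod 4 × ZMod 4, c4 (nR (Wcc.gg qr p)) * ZMod.stdAddChar p.2 = 4 := by
  have h1 : ∀ p : ZMod 4 × ZMod 4, c4 (nR (Wcc.gg qr p)) =
      ((ZMod.χ₄ (p.1 ^ 2 + p.1 * p.2 + 2 * p.2 ^ 2) : ℤ) : ℂ) := by
    intro p
    rw [nR_gg]
    unfold c4
    push_cast
    rw [ZMod.natCast_zmod_val, ZMod.natCast_zmod_val]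
  simp only [h1]
  rw [Fintype.sum_prod_type_right]
  simp only [← Finset.sum_mul, ← Int.cast_sum, a4]
  push_cast
  simp only [add_mul, ite_mul, zero_mul, Finset.sum_add_distrib, Finset.sum_ite_eq',
    Finset.mem_univ, if_true, AddChar.map_zero_eq_one]
  have h2 := std_half (q := 4) 2 rfl
  have h3 : (((2 : ℕ) : ℤ) : ZMod 4) = 2 := by norm_num
  rw [h3] at h2
  rw [h2]
  norm_num

lemma sum_q8 : ∑ p : ZMod 8 × ZMod 8, c8 (nR (Wcc.gg qr p)) * ZMod.stdAddChar p.2 = 8 := by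
  have h1 : ∀ p : ZMod 8 × ZMod 8, c8 (nR (Wcc.gg qr p)) =
      ((ZMod.χ₈ (p.1 ^ 2 + p.1 * p.2 + 2 * p.2 ^ 2) : ℤ) : ℂ) := by
    intro p
    rw [nR_gg]
    unfold c8
    push_cast
    rw [ZMod.natCast_zmod_val, ZMod.natCast_zmod_val]
  simp only [h1]
  rw [Fintype.sum_prod_type_right]
  simp only [← Finset.sum_mul, ← Int.cast_sum, a8]
  push_cast
  simp only [add_mul, ite_mul, zero_mul, Finset.sum_add_distrib, Finset.sum_ite_eq',
    Finset.mem_univ, if_true, AddChar.map_zero_eq_one]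
  have h2 := std_half (q := 8) 4 rfl
  have h3 : (((4 : ℕ) : ℤ) : ZMod 8) = 4 := by norm_num
  rw [h3] at h2
  rw [h2]
  norm_num

lemma sum_q8' : ∑ p : ZMod 8 × ZMod 8, c8' (nR (Wcc.gg qr p)) * ZMod.stdAddChar p.2 = 8 := by
  have h1 : ∀ p : ZMod 8 × ZMod 8, c8' (nR (Wcc.gg qr p)) =
      ((ZMod.χ₈' (p.1 ^ 2 + p.1 * p.2 + 2 * p.2 ^ 2) : ℤ) : ℂ) := by
    intro p
    rw [nR_gg]
    unfold c8'
    push_cast
    rw [ZMod.natCast_zmod_val, ZMod.natCast_zmod_val]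
  simp only [h1]
  rw [Fintype.sum_prod_type_right]
  simp only [← Finset.sum_mul, ← Int.cast_sum, a8']
  push_cast
  simp only [add_mul, ite_mul, zero_mul, Finset.sum_add_distrib, Finset.sum_ite_eq',
    Finset.mem_univ, if_true, AddChar.map_zero_eq_one]
  have h2 := std_half (q := 8) 4 rfl
  have h3 : (((4 : ℕ) : ℤ) : ZMod 8) = 4 := by norm_num
  rw [h3] at h2
  rw [h2]
  norm_num

/-! ### the general sum -/

section gen
variable {q : ℕ} [NeZero q]

lemma fp_eq {m : ℕ} (hm : 1 ≤ m) (φ : ℤ → ℂ) (α : RR) :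
    fp (2 * m - 1) (fun I => psiM m I * φ (nI I)) α = e7 α * φ (nR α) := by
  unfold fp
  show psi (sp α) ^ (2 * m - 1) * φ (nI (sp α)) / (α : ℂ) ^ (2 * m - 1) = _
  rw [psi_sp, nI_sp]
  have hn : ((nR α).natAbs : ℤ) = nR α := Int.natAbs_of_nonneg (nR_nonneg α)
  rw [hn]
  have hodd : Odd (2 * m - 1) := ⟨m - 1, by omega⟩
  by_cases h0 : α = 0
  · subst h0
    have h1 : e7 (0 : RR) = 0 := e7_eq_zero.2 (by simp)
    rw [h1]
    simp [hodd.pos.ne']
  · have hα : (α : ℂ) ≠ 0 := fun h => h0 (Subtype.ext h)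
    rw [mul_pow, mul_assoc, mul_comm ((α : ℂ) ^ (2 * m - 1)), ← mul_assoc,
      mul_div_assoc, div_self (pow_ne_zero _ hα), mul_one]
    congr 1
    by_cases h7 : α ∈ sp fR
    · rw [e7_eq_zero.2 h7, zero_pow hodd.pos.ne']
    · have h2 := e7_sq h7
      obtain ⟨j, hj⟩ := hodd
      rw [hj, pow_succ, pow_mul, h2, one_pow, one_mul]

theorem gauss_gen {m : ℕ} (hm : 1 ≤ m) {φ : ℤ → ℂ} {σ : ℂ}
    (hs : ∑ p : ZMod q × ZMod q, φ (nR (Wcc.gg qr p)) * ZMod.stdAddChar p.2 = q)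
    (hper : Per q φ) (hmul : ∀ a b, φ (a * b) = φ a * φ b) (h7 : φ 7 = σ)
    (he : e7 ((q : ℕ) : RR) = 1) (h1 : φ 1 = 1) (hcop : IsCoprime fR ((q : ℕ) : RR)) :
    ∃ T : Finset RR, Sys (sp (fR * (q : RR))) {⊤} ⊤ (fR * (q : RR)) T ∧
      Wc al m (sp (fR * (q : RR))) ⊤ (fR * (q : RR)) T (fun I => psiM m I * φ (nI I)) =
        (-1) ^ (m - 1) * σ := by
  classical
  obtain ⟨a, b, hab⟩ := hcop
  have hR0 : (⊤ : Ideal RR) ≠ ⊥ := top_ne_bot
  have hφf : fR ∈ sp fR := Ideal.mem_span_singleton_self _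
  have hfc : ((fR : RR) : ℂ) ≠ 0 := by rw [fR_coe]; exact s7_ne
  set T : Finset RR := (T1 ×ˢ (Finset.univ : Finset (ZMod q × ZMod q))).image (Wcc.mm qr fR) with hT
  have hrp := Wcc.rp_mm (q := q) qr hφf hab T1_rp
  rw [Ideal.span_singleton_mul_span_singleton] at hrp
  have hsys : Sys (sp (fR * (q : RR))) {⊤} ⊤ (fR * (q : RR)) T := by
    refine ⟨⟨?_, ?_⟩, ?_, ?_, hR0, ?_, ?_, hrp⟩
    · intro c hc
      rw [Finset.mem_singleton.1 hc]
      exact hR0
    · intro I _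
      refine ⟨⊤, ⟨Finset.mem_singleton_self _, ?_⟩, fun c hc => Finset.mem_singleton.1 hc.1⟩
      rw [Ideal.mul_top]
      exact (qp.pid.principal I).principal
    · intro c hc
      rw [Finset.mem_singleton.1 hc, ← Ideal.one_eq_top]
      exact isCoprime_one_left
    · intro c hc
      rw [Finset.mem_singleton.1 hc]
    · rw [← Ideal.one_eq_top]
      exact isCoprime_one_left
    · rw [Ideal.mul_top]
  refine ⟨T, hsys, ?_⟩
  have key : gT al (2 * m - 1) (fun I => psiM m I * φ (nI I)) (fR * (q : RR)) T = -s7 * σ * q := by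
    unfold gT
    rw [hT, Finset.sum_image]
    · rw [Finset.sum_product]
      have e1 : ∀ x ∈ T1, ∀ p : ZMod q × ZMod q,
          fp (2 * m - 1) (fun I => psiM m I * φ (nI I)) (Wcc.mm qr fR (x, p)) *
            ez al ((Wcc.mm qr fR (x, p) : ℂ) / ((fR * (q : RR) : RR) : ℂ)) =
          (e7 x * ez al ((x : ℂ) / (fR : ℂ))) * σ *
            (φ (nR (Wcc.gg qr p)) * ZMod.stdAddChar p.2) := by
        intro x _ p
        rw [Wcc.ez_mm qr hfc, Wcc.ez_gg, fp_eq hm]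
        have e2 : e7 (Wcc.mm qr fR (x, p)) = e7 x := by
          have : e7 (Wcc.mm qr fR (x, p)) = e7 ((q : RR) * x) := by
            apply e7_per
            have : Wcc.mm qr fR (x, p) - (q : RR) * x = fR * Wcc.gg qr p := by
              unfold Wcc.mm; ring
            rw [this]
            exact Ideal.mul_mem_right _ _ hφf
          rw [this, e7_mul, he, one_mul]
        have e3 : φ (nR (Wcc.mm qr fR (x, p))) = σ * φ (nR (Wcc.gg qr p)) := by
          have : φ (nR (Wcc.mm qr fR (x, p))) = φ (nR (fR * Wcc.gg qr p)) := by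
            apply hper
            apply nR_cong
            have : Wcc.mm qr fR (x, p) - fR * Wcc.gg qr p = (q : RR) * x := by
              unfold Wcc.mm; ring
            rw [this]
            exact Ideal.mul_mem_right _ _ (Ideal.mem_span_singleton_self _)
          rw [this, nR_mul, nR_fR, hmul, h7]
        rw [e2, e3]
        ring
      rw [Finset.sum_congr rfl (fun x hx => Finset.sum_congr rfl (fun p _ => e1 x hx p))]
      simp only [← Finset.mul_sum]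
      rw [hs, ← Finset.sum_mul, ← Finset.sum_mul, sum_T1]
    · intro v hv v' hv' he'
      rw [Finset.mem_coe, Finset.mem_product] at hv hv'
      apply Wcc.mm_inj qr hφf hab T1_rp v v' hv.1 hv'.1
      rw [he', sub_self]
      exact (sp fR * sp (q : RR)).zero_mem
  have hq0 : (q : ℂ) ≠ 0 := by exact_mod_cast NeZero.ne q
  have hnm : (nm (sp (fR * (q : RR))) : ℂ) = 7 * (q : ℂ) ^ 2 := by
    rw [nm_nI, nI_sp, nR_mul, nR_fR, nR_nat]
    have : (7 * (q : ℤ) ^ 2).natAbs = 7 * q ^ 2 := by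
      rw [Int.natAbs_mul, Int.natAbs_pow, Int.natAbs_natCast]
      rfl
    rw [this]
    push_cast
    ring
  have htop : (fun I => psiM m I * φ (nI I)) (⊤ : Ideal RR) = 1 := by
    have e : (⊤ : Ideal RR) = sp 1 := Ideal.span_singleton_one.symm
    show psiM m ⊤ * φ (nI ⊤) = 1
    rw [e]
    unfold psiM
    rw [psi_sp, nI_sp, e7_one]
    have : nR (1 : RR) = 1 := by
      have := nR_nat 1
      push_cast at this
      simpa using this
    rw [this]
    simp [h1]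
  unfold Wc
  rw [key, hnm, htop, mul_one]
  obtain ⟨j, rfl⟩ : ∃ j, m = j + 1 := ⟨m - 1, by omega⟩
  have e1 : 2 * (j + 1) - 1 = 2 * j + 1 := by omega
  have e2 : ((fR * (q : RR) : RR) : ℂ) = s7 * q := by
    push_cast
    rw [fR_coe]
  rw [e1, e2, Nat.add_sub_cancel, mul_pow, pow_succ s7, pow_mul s7, s7_sq]
  have h7 : (7 : ℂ) ≠ 0 := by norm_num
  have e3 : (-7 : ℂ) ^ j = (-1) ^ j * 7 ^ j := by rw [← mul_pow]; norm_num
  rw [e3, mul_pow, ← pow_mul]
  rw [div_eq_iff (mul_ne_zero (pow_ne_zero _ h7) (pow_ne_zero _ hq0))]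
  have e4 : 2 * (j + 1) = (2 * j + 1) + 1 := by ring
  rw [e4, pow_succ (q : ℂ) (2 * j + 1), pow_succ (7 : ℂ) j]
  linear_combination (-(σ * q * ((-1) ^ j * 7 ^ j * (q : ℂ) ^ (2 * j + 1)))) * s7_sq

end gen

lemma cop_nat {N : ℕ} (h : Nat.Coprime 7 N) : IsCoprime fR ((N : ℕ) : RR) := by
  have h1 : IsCoprime ((7 : ℕ) : RR) ((N : ℕ) : RR) := cop_cast h
  have h2 : ((7 : ℕ) : RR) = fR * (-fR) := by
    have := fR_mul
    push_cast
    linear_combination this
  rw [h2] at h1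
  exact h1.of_mul_left_left

theorem t_G7 : S_G7 := by
  intro m hm φ k σ h
  rcases h with ⟨rfl, rfl, rfl⟩ | ⟨rfl, rfl, rfl⟩ | ⟨rfl, rfl, rfl⟩ | ⟨rfl, rfl, rfl⟩
  · have h := gauss_gen (q := 1) hm (φ := fun _ => 1) (σ := 1) (by rw [sum_q1]; norm_num)
      (fun _ _ _ => rfl) (fun _ _ => by norm_num) rfl (by rw [Nat.cast_one, e7_one]) rfl
      (cop_nat (by norm_num))
    have e : ((1 : ℕ) : RR) = 2 ^ 0 := by norm_num
    rw [e] at h
    simpa using h
  · have h := gauss_gen (q := 4) hm (φ := c4) (σ := -1) (by rw [sum_q4]; norm_num)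
      (by simpa using tp_c4.per) tp_c4.mul (by
        unfold c4
        have : ZMod.χ₄ ((7 : ℤ) : ZMod 4) = -1 := by decide
        rw [this]
        norm_num) (by
        rw [e7_nat]
        have : quadraticChar (ZMod 7) ((4 : ℕ) : ZMod 7) = 1 := by decide
        rw [this]
        norm_num) tp_c4.one (cop_nat (by norm_num))
    have e : ((4 : ℕ) : RR) = 2 ^ 2 := by norm_num
    rw [e] at h
    simpa using h
  · have h := gauss_gen (q := 8) hm (φ := c8) (σ := 1) (by rw [sum_q8]; norm_num)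
      (by simpa using tp_c8.per) tp_c8.mul (by
        unfold c8
        have : ZMod.χ₈ ((7 : ℤ) : ZMod 8) = 1 := by decide
        rw [this]
        norm_num) (by
        rw [e7_nat]
        have : quadraticChar (ZMod 7) ((8 : ℕ) : ZMod 7) = 1 := by decide
        rw [this]
        norm_num) tp_c8.one (cop_nat (by norm_num))
    have e : ((8 : ℕ) : RR) = 2 ^ 3 := by norm_num
    rw [e] at h
    simpa using h
  · have h := gauss_gen (q := 8) hm (φ := c8') (σ := -1) (by rw [sum_q8']; norm_num)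
      (by simpa using tp_c8'.per) tp_c8'.mul (by
        unfold c8'
        have : ZMod.χ₈' ((7 : ℤ) : ZMod 8) = -1 := by decide
        rw [this]
        norm_num) (by
        rw [e7_nat]
        have : quadraticChar (ZMod 7) ((8 : ℕ) : ZMod 7) = 1 := by decide
        rw [this]
        norm_num) tp_c8'.one (cop_nat (by norm_num))
    have e : ((8 : ℕ) : RR) = 2 ^ 3 := by norm_num
    rw [e] at h
    simpa using h

end Pool.Agent.L0h75.PA
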