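import Pool.Agent.L0h75.PA.Base

/-!
# PA: root numbers and parity of the order at the centre, statements
-/

set_option autoImplicit false

namespace Pool.Agent.L0h75.PA

open Pool.Agent.Y698 Pool.Agent.Y698.SG Pool.Agent.L0h4.TW Pool.Agent.L0h75.EV
open Pool.Agent.W192.HK Pool.Agent.TH936.AC Pool.Agent.TH936.AW

/-- the character `ψ ^ (2 m - 1)` of conductor `√-7` -/
noncomputable def psiM (m : ℕ) (I : Ideal RR) : ℂ := psi I ^ (2 * m - 1)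

/-- the character at two: `φ` has the conductor `2 ^ k` and the sign `σ` -/
def Two (φ : ℤ → ℂ) (k : ℕ) (σ : ℤ) : Prop :=
  (φ = (fun _ => 1) ∧ k = 0 ∧ σ = 1) ∨ (φ = c4 ∧ k = 2 ∧ σ = -1) ∨ (φ = c8 ∧ k = 3 ∧ σ = 1) ∨
    (φ = c8' ∧ k = 3 ∧ σ = -1)

/-- the twisted character -/
noncomputable def thX (m : ℕ) (φ : ℤ → ℂ) (S : Finset ℕ) (I : Ideal RR) : ℂ :=
  psiM m I * (φ (nI I) * ∏ q ∈ S, qch q (nI I))

/-- the sign of `q* = ± q`, `q* = 1` modulo `4` -/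
def sg4 (q : ℕ) : ℤ := if q % 4 = 3 then -1 else 1

/-- HCM: the power of the character. -/
def S_HCM : Prop := ∀ m : ℕ, 1 ≤ m → HC (2 * m - 1) (sp fR) (psiM m) ∧ CS (psiM m)

/-- CSX: the characters of the norm are conjugate self-dual. -/
def S_CSX : Prop := ∀ φ : ℤ → ℂ, (∀ n, (starRingEnd ℂ) (φ n) = φ n) → CS (fun I : Ideal RR => φ (nI I))

/-- UNI: the constant of the functional equation does not depend on the choices. -/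
def S_UNI : Prop := ∀ m : ℕ, 1 ≤ m → ∀ (Q : Ideal RR) (θ : Ideal RR → ℂ), HC (2 * m - 1) Q θ →
  ∀ (μ μ' : RR) (T T' : Finset RR), Sys Q {⊤} ⊤ μ T → Sys Q {⊤} ⊤ μ' T' →
    Wc al m Q ⊤ μ T θ = Wc al m Q ⊤ μ' T' θ

/-- G7: Gauss sums, the prime `√-7` is separated: `N = 2 ^ k`. -/
def S_G7 : Prop := ∀ m : ℕ, 1 ≤ m → ∀ (φ : ℤ → ℂ) (k : ℕ) (σ : ℤ), Two φ k σ →
  ∃ T : Finset RR, Sys (sp (fR * 2 ^ k)) {⊤} ⊤ (fR * 2 ^ k) T ∧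
    Wc al m (sp (fR * 2 ^ k)) ⊤ (fR * 2 ^ k) T (fun I => psiM m I * φ (nI I)) =
      (-1) ^ (m - 1) * (σ : ℂ)

/-- REC: quadratic reciprocity. -/
def S_REC : Prop := ∀ q : ℕ, Od q → jacobiSym q 7 * jacobiSym 7 q = sg4 q

/-- ROOT: **the root numbers of the twists.** -/
def S_ROOT : Prop := ∀ m : ℕ, 1 ≤ m → ∀ (φ : ℤ → ℂ) (k : ℕ) (σ : ℤ), Two φ k σ →
  ∀ S : Finset ℕ, (∀ q ∈ S, Od q) → ∃ Q : Ideal RR, HC (2 * m - 1) Q (thX m φ S) ∧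
    CS (thX m φ S) ∧ ∃ (μ : RR) (T : Finset RR), Sys Q {⊤} ⊤ μ T ∧
      Wc al m Q ⊤ μ T (thX m φ S) = (-1) ^ (m - 1) * (σ : ℂ) * ((∏ q ∈ S, sg4 q : ℤ) : ℂ)

/-- EVO: for the root number `1` the order at the centre is even. -/
def S_EVO : Prop := ∀ m : ℕ, 1 ≤ m → ∀ (Q : Ideal RR) (θ : Ideal RR → ℂ), HC (2 * m - 1) Q θ →
  CS θ → (∃ (μ : RR) (T : Finset RR), Sys Q {⊤} ⊤ μ T ∧ Wc al m Q ⊤ μ T θ = 1) →
  ∃ F : ℂ → ℂ, Differentiable ℂ F ∧ (∀ z : ℂ, (m : ℝ) + 1 / 2 < z.re →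
    HasSum (fun I : Ideal RR => θ I * (nm I : ℂ) ^ (-z)) (F z)) ∧
    ∃ r : ℕ, analyticOrderAt F (m : ℂ) = ((2 * r : ℕ) : ℕ∞)

/-- the primitive quadratic character of `ℚ(√D)`, `D` squarefree, at `n ≥ 1` -/
def chiD (D : ℤ) (n : ℕ) : ℤ :=
  if D % 4 = 1 then jacobiSym n D.natAbs else if n % 2 = 0 then 0 else jacobiSym D n

/-- DEC: the quadratic characters. -/
def S_DEC : Prop := ∀ D : ℤ, Squarefree D → ¬ (7 : ℤ) ∣ D → ∃ (φ : ℤ → ℂ) (k : ℕ) (σ : ℤ)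
  (S : Finset ℕ), Two φ k σ ∧ (∀ q ∈ S, Od q) ∧ σ * ∏ q ∈ S, sg4 q = D.sign ∧
    ∀ n : ℕ, 0 < n → φ n * ∏ q ∈ S, qch q n = (chiD D n : ℂ)

/-- the norm of `x + y ω`, `ω = (1 + √-7) / 2` -/
def nn (v : ℤ × ℤ) : ℕ := (v.1 ^ 2 + v.1 * v.2 + 2 * v.2 ^ 2).natAbs

/-- the term of the Hecke L-series of `ψ_D ^ (2 k - 1)`: the character of `x + y ω` is
`((x + 4 y) / 7) χ_D(N(x + y ω))` -/
noncomputable def term (D : ℤ) (k : ℕ) (s : ℂ) (v : ℤ × ℤ) : ℂ :=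
  (jacobiSym (v.1 + 4 * v.2) 7 : ℂ) * (chiD D (nn v) : ℂ) *
    ((v.1 : ℂ) + (v.2 : ℂ) * ((1 + Complex.I * (Real.sqrt 7 : ℂ)) / 2)) ^ (2 * k - 1) *
    (nn v : ℂ) ^ (-s)

/-- SUM: the sum over the ideals as a sum over the elements. -/
def S_SUM : Prop := ∀ (m : ℕ), 1 ≤ m → ∀ (X : ℤ → ℂ) (D : ℤ), (∀ n : ℕ, 0 < n → X n = (chiD D n : ℂ)) →
  ∀ (z A : ℂ), HasSum (fun I : Ideal RR => psiM m I * X (nI I) * (nm I : ℂ) ^ (-z)) A →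
    HasSum (term D m z) (2 * A)

/-- `F` is the Hecke L-function `L(ψ_D ^ (2 k - 1), s)` -/
def IsHecke (D : ℤ) (k : ℕ) (F : ℂ → ℂ) : Prop :=
  Differentiable ℂ F ∧ ∀ s : ℂ, (k : ℝ) + 1 / 2 < s.re → HasSum (term D k s) (2 * F s)

/-- PAR: **parity.** -/
def S_PAR : Prop := ∀ (D : ℤ) (k : ℕ), Squarefree D → ¬ (7 : ℤ) ∣ D → 1 ≤ k →
  ((0 < D ∧ Odd k) ∨ (D < 0 ∧ Even k)) →
  ∃ F : ℂ → ℂ, IsHecke D k F ∧ ∃ r : ℕ, analyticOrderAt F (k : ℂ) = ((2 * r : ℕ) : ℕ∞)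

/-- FIN -/
theorem par (h1 : S_ROOT) (h2 : S_EVO) (h3 : S_DEC) (h4 : S_SUM) : S_PAR := by
  intro D k hD h7 hk hpar
  obtain ⟨φ, j, σ, S, hφ, hS, hsgn, hchi⟩ := h3 D hD h7
  obtain ⟨Q, hc, hcs, μ, T, hsys, hW⟩ := h1 k hk φ j σ hφ S hS
  have hW1 : Wc al k Q ⊤ μ T (thX k φ S) = 1 := by
    have e : (σ : ℂ) * ((∏ q ∈ S, sg4 q : ℤ) : ℂ) = ((D.sign : ℤ) : ℂ) := by
      rw [← hsgn]
      push_cast
      ring
    rw [hW, mul_assoc, e]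
    rcases hpar with ⟨h, hk'⟩ | ⟨h, hk'⟩
    · rw [Int.sign_eq_one_of_pos h]
      have : Even (k - 1) := by
        obtain ⟨r, rfl⟩ := hk'
        exact ⟨r, by omega⟩
      rw [this.neg_one_pow]
      norm_num
    · rw [Int.sign_eq_neg_one_of_neg h]
      have : Odd (k - 1) := by
        obtain ⟨r, rfl⟩ := hk'
        exact ⟨r - 1, by omega⟩
      rw [this.neg_one_pow]
      norm_num
  obtain ⟨F, hF, hsum, r, hr⟩ := h2 k hk Q _ hc hcs ⟨μ, T, hsys, hW1⟩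
  refine ⟨F, ⟨hF, fun s hs => ?_⟩, r, hr⟩
  exact h4 k hk (fun n => φ n * ∏ q ∈ S, qch q n) D hchi s (F s) (hsum s hs)

end Pool.Agent.L0h75.PA
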